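import Mathlib
import Pool.Agent.H8.CH.Riesz
import Pool.Graph.R_pool_sql_team_909e0234.Results.MP_4abea4_an.CyclicNotHilbert

/-!
# Hilbert functions whose cyclic systems are not Hilbert representable

Q1 of MP_4abea4_an asks whether the cyclic system `X_f` of a Hilbert function `f` on `ℤ` is always
Hilbert representable. The definitions for `ℤ` (one homeomorphism) are those of the library module
`CyclicNotHilbert` of this problem, which answers no with one example. Below: the analogous
definitions for a discrete group `G`, and such examples inside every infinite subset of `ℤ` and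
inside every infinite set of pairwise commuting elements of every group.
-/

set_option autoImplicit false
open scoped Topology Pointwise ComplexConjugate
open Filter

namespace Pool.Agent.Results.MP_4abea4_an.CommutingElements

open Pool.Agent.Results.MP_4abea4_an.CyclicNotHilbert
open Pool.Agent.H8.CH

universe u v w

/-- Let the group `G` act on `X` by homeomorphisms, `ρ : G →* (X ≃ₜ X)`. The action is Hilbert
representable (Hilbert spaces taken in the universe `w`): there are a (complex) Hilbert space `H`,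
a unitary representation `U` of `G` on `H` and a map `α : X → H` which is a topological embedding
of `X` into `H` with its weak topology, with `α (ρ g x) = U g (α x)`. -/
def HilbertRepresentableG (G : Type u) [Group G] (X : Type v) [TopologicalSpace X]
    (ρ : G →* (X ≃ₜ X)) : Prop :=
  ∃ (H : Type w) (_ : NormedAddCommGroup H) (_ : InnerProductSpace ℂ H) (_ : CompleteSpace H)
    (U : G →* (H ≃ₗᵢ[ℂ] H)) (α : X → H),
    Topology.IsEmbedding (fun x => toWeakSpace ℂ H (α x)) ∧ ∀ g x, α (ρ g x) = U g (α x)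

/-- `f : G → ℝ` is a Hilbert function: there are a compact Hausdorff space `X`, a Hilbert
representable action of `G` on `X`, a point `x₀` and a continuous `F : X → ℝ` with
`f g = F (g x₀)`. -/
def IsHilbertFunctionG (G : Type u) [Group G] (f : G → ℝ) : Prop :=
  ∃ (X : Type v) (_ : TopologicalSpace X) (_ : CompactSpace X) (_ : T2Space X)
    (ρ : G →* (X ≃ₜ X)), HilbertRepresentableG.{u, v, w} G X ρ ∧
    ∃ (x₀ : X) (F : X → ℝ), Continuous F ∧ ∀ g : G, f g = F (ρ g x₀)

/-- `X_f`, the closure in `Y^G` (product topology) of the set of all translates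
`x ↦ f (x * h)` of `f`. In the main theorem `Y = ℝ`. -/
def cyclicSetG {G : Type u} [Group G] {Y : Type} [TopologicalSpace Y] (f : G → Y) :
    Set (G → Y) :=
  closure (Set.range fun h : G => fun x : G => f (x * h))

theorem mem_cyclicSetG {G : Type u} [Group G] {Y : Type} [TopologicalSpace Y] {f : G → Y}
    {y : G → Y} (hy : y ∈ cyclicSetG f) (g : G) : (fun x => y (x * g)) ∈ cyclicSetG f := by
  have hc : Continuous (fun (y : G → Y) (x : G) => y (x * g)) :=
    continuous_pi fun x => continuous_apply (x * g)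
  refine map_mem_closure hc hy ?_
  rintro _ ⟨h, rfl⟩
  exact ⟨g * h, by ext x; simp [mul_assoc]⟩

/-- The action of `G` on `X_f`: `(g y) x = y (x * g)`. -/
def cyclicActionG {G : Type u} [Group G] {Y : Type} [TopologicalSpace Y] (f : G → Y) :
    G →* (cyclicSetG f ≃ₜ cyclicSetG f) where
  toFun g :=
    { toFun := fun y => ⟨fun x => y.1 (x * g), mem_cyclicSetG y.2 g⟩
      invFun := fun y => ⟨fun x => y.1 (x * g⁻¹), mem_cyclicSetG y.2 g⁻¹⟩
      left_inv := fun y => Subtype.ext (by ext x; simp)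
      right_inv := fun y => Subtype.ext (by ext x; simp)
      continuous_toFun := by
        refine Continuous.subtype_mk (continuous_pi fun x => ?_) _
        exact (continuous_apply (x * g)).comp continuous_subtype_val
      continuous_invFun := by
        refine Continuous.subtype_mk (continuous_pi fun x => ?_) _
        exact (continuous_apply (x * g⁻¹)).comp continuous_subtype_val }
  map_one' := by ext y x; simp
  map_mul' g h := by
    ext y x
    change y.1 (x * (g * h)) = y.1 (x * g * h)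
    rw [mul_assoc]

section

variable {G : Type u} [Group G] {Y : Type} [TopologicalSpace Y]

lemma cyc_apply (f : G → Y) (g : G) (y : cyclicSetG f) (x : G) :
    (cyclicActionG f g y).1 x = y.1 (x * g) := rfl

lemma self_mem (f : G → Y) : f ∈ cyclicSetG f := subset_closure ⟨1, by ext x; simp⟩

lemma cyc_compact [T2Space Y] {f : G → Y} {K : Set Y} (hK : IsCompact K) (hf : ∀ x, f x ∈ K) :
    IsCompact (cyclicSetG f) := by
  have h1 : IsCompact (Set.pi Set.univ (fun _ : G => K)) :=
    isCompact_univ_pi (fun _ => hK)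
  refine h1.of_isClosed_subset isClosed_closure ?_
  refine closure_minimal ?_ h1.isClosed
  rintro _ ⟨k, rfl⟩
  intro n _
  exact hf _

/-- functions represented by a ball -/
def KS {H : Type u} [NormedAddCommGroup H] [InnerProductSpace ℂ H] (x : G → H) (C : ℝ) :
    Set (G → ℂ) :=
  {y | ∃ h : H, ‖h‖ ≤ C ∧ ∀ m : G, inner ℂ (x m⁻¹) h = y m}

lemma KS_closed {H : Type u} [NormedAddCommGroup H] [InnerProductSpace ℂ H] [CompleteSpace H]
    (x : G → H) (C : ℝ) : IsClosed (KS x C) := by
  let Ψ : WeakDual ℂ H → (G → ℂ) := fun ψ m => conj (ψ (x m⁻¹))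
  have hΨ : Continuous Ψ := by
    apply continuous_pi
    intro m
    exact Complex.continuous_conj.comp (WeakDual.eval_continuous _)
  have hc : IsCompact (Ψ '' (WeakDual.toStrongDual ⁻¹' Metric.closedBall (0 : StrongDual ℂ H) C)) :=
    (WeakDual.isCompact_closedBall _ _).image hΨ
  convert hc.isClosed using 1
  ext y
  constructor
  · rintro ⟨h, hn, hy⟩
    refine ⟨StrongDual.toWeakDual (InnerProductSpace.toDual ℂ H h), ?_, ?_⟩
    · rw [Set.mem_preimage, mem_closedBall_zero_iff]
      change ‖InnerProductSpace.toDual ℂ H h‖ ≤ C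
      rwa [LinearIsometryEquiv.norm_map]
    · ext m
      change conj (InnerProductSpace.toDual ℂ H h (x m⁻¹)) = _
      rw [InnerProductSpace.toDual_apply_apply, inner_conj_symm, hy]
  · rintro ⟨ψ, hψ, hy⟩
    refine ⟨(InnerProductSpace.toDual ℂ H).symm (WeakDual.toStrongDual ψ), ?_, ?_⟩
    · rw [LinearIsometryEquiv.norm_map]
      rwa [Set.mem_preimage, mem_closedBall_zero_iff] at hψ
    · intro m
      have := congrFun hy m
      simp only [Ψ] at this
      rw [← this, ← inner_conj_symm, InnerProductSpace.toDual_symm_apply]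
      rfl

/-- A criterion for representability of cyclic systems. -/
theorem rep_gen {H : Type u} [NormedAddCommGroup H] [InnerProductSpace ℂ H] [CompleteSpace H]
    (U : G →* (H ≃ₗᵢ[ℂ] H)) (x : G → H) (hU : ∀ g n, U g (x n) = x (g * n))
    (hd : Dense ((Submodule.span ℂ (Set.range x) : Submodule ℂ H) : Set H))
    [T2Space Y] {φ : G → Y} {K : Set Y} (hK : IsCompact K) (hI : ∀ x, φ x ∈ K) {Ψ : Y → ℂ}
    (hΨ : Continuous Ψ) (hΨi : Function.Injective Ψ) (v0 : H)
    (hv0 : ∀ m, inner ℂ (x m⁻¹) v0 = Ψ (φ m)) :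
    HilbertRepresentableG.{u, u, u} G (cyclicSetG φ) (cyclicActionG φ) := by
  have hΨc : Continuous (fun (y : G → Y) (m : G) => Ψ (y m)) :=
    continuous_pi fun m => hΨ.comp (continuous_apply m)
  have hsub : cyclicSetG φ ⊆ (fun (y : G → Y) (m : G) => Ψ (y m)) ⁻¹' KS x ‖v0‖ := by
    refine closure_minimal ?_ ((KS_closed x _).preimage hΨc)
    rintro _ ⟨k, rfl⟩
    refine ⟨U k v0, (LinearIsometryEquiv.norm_map _ _).le, ?_⟩
    intro m
    have h1 : x m⁻¹ = U k (x (m * k)⁻¹) := by
      rw [hU, mul_inv_rev, mul_inv_cancel_left]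
    rw [h1, LinearIsometryEquiv.inner_map_map, hv0]
  have hex : ∀ y : cyclicSetG φ, ∃ h : H, ‖h‖ ≤ ‖v0‖ ∧
      ∀ m : G, inner ℂ (x m⁻¹) h = Ψ (y.1 m) :=
    fun y => hsub y.2
  choose f hf1 hf2 using hex
  have hfi : Function.Injective f := by
    intro y z hyz
    ext m
    have h1 := hf2 y m
    have h2 := hf2 z m
    rw [hyz, h2] at h1
    exact hΨi h1.symm
  have hfe : ∀ g y, f (cyclicActionG φ g y) = U g (f y) := by
    intro g z
    refine hd.eq_of_inner_right ℂ ?_
    intro v hv
    induction hv using Submodule.span_induction with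
    | mem v hv =>
      obtain ⟨n, rfl⟩ := hv
      have h1 := hf2 (cyclicActionG φ g z) n⁻¹
      rw [cyc_apply, inv_inv] at h1
      rw [h1]
      have h2 := hf2 z (n⁻¹ * g)
      rw [← h2, mul_inv_rev, inv_inv]
      have h3 : x n = U g (x (g⁻¹ * n)) := by rw [hU, mul_inv_cancel_left]
      rw [h3, LinearIsometryEquiv.inner_map_map]
    | zero => simp
    | add a b _ _ ha hb => rw [inner_add_left, inner_add_left, ha, hb]
    | smul c a _ ha => rw [inner_smul_left, inner_smul_left, ha]
  have hfc : ∀ v : H, Continuous (fun y => inner ℂ v (f y)) := by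
    intro v
    have hspan : ∀ w ∈ Submodule.span ℂ (Set.range x), Continuous (fun y => inner ℂ w (f y)) := by
      intro w hw
      induction hw using Submodule.span_induction with
      | mem w hw =>
        obtain ⟨n, rfl⟩ := hw
        have : (fun y => inner ℂ (x n) (f y)) = fun y : cyclicSetG φ => Ψ (y.1 n⁻¹) := by
          ext y
          have := hf2 y n⁻¹
          rwa [inv_inv] at this
        rw [this]
        exact hΨ.comp ((continuous_apply _).comp continuous_subtype_val)
      | zero => simp only [inner_zero_left]; exact continuous_const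
      | add a b _ _ ha hb => simp only [inner_add_left]; exact ha.add hb
      | smul c a _ ha => simp only [inner_smul_left]; exact continuous_const.mul ha
    refine continuous_of_uniform_approx_of_continuous ?_
    intro u hu
    obtain ⟨ε, hε, hεu⟩ := Metric.mem_uniformity_dist.mp hu
    have hpos : 0 < ‖v0‖ + 1 := by positivity
    obtain ⟨w, hw, hwv⟩ := Metric.dense_iff.mp hd v (ε / (‖v0‖ + 1)) (div_pos hε hpos)
    refine ⟨fun y => inner ℂ w (f y), hspan w hwv, ?_⟩
    intro y
    apply hεu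
    rw [dist_eq_norm, ← inner_sub_left]
    have hvw : ‖v - w‖ < ε / (‖v0‖ + 1) := by rw [← dist_eq_norm, dist_comm]; exact hw
    calc ‖inner ℂ (v - w) (f y)‖ ≤ ‖v - w‖ * ‖f y‖ := norm_inner_le_norm _ _
      _ ≤ ‖v - w‖ * (‖v0‖ + 1) := by
        apply mul_le_mul_of_nonneg_left ((hf1 y).trans (by linarith)) (norm_nonneg _)
      _ < ε := by rwa [← lt_div_iff₀ hpos]
  refine ⟨H, inferInstance, inferInstance, inferInstance, U, f, ?_, hfe⟩
  have : CompactSpace (cyclicSetG φ) := isCompact_iff_compactSpace.mp (cyc_compact hK hI)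
  have hcont : Continuous (fun x => toWeakSpace ℂ H (f x)) := by
    apply WeakBilin.continuous_of_continuous_eval
    intro ψ
    have h1 := hfc ((InnerProductSpace.toDual ℂ H).symm ψ)
    refine h1.congr ?_
    intro x
    rw [InnerProductSpace.toDual_symm_apply]
    rfl
  have hinj : Function.Injective (fun x => toWeakSpace ℂ H (f x)) :=
    (toWeakSpace ℂ H).injective.comp hfi
  exact (hcont.isClosedEmbedding hinj).isEmbedding

/-- The cyclic system of a positive definite function is Hilbert representable. -/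
theorem rep_of_pd {φ : G → ℂ} (hφ : PD φ) {K : Set ℂ} (hK : IsCompact K) (hI : ∀ x, φ x ∈ K) :
    HilbertRepresentableG.{u, u, u} G (cyclicSetG φ) (cyclicActionG φ) := by
  obtain ⟨H, i1, i2, i3, U, x, hU, hx, hd⟩ := gns hφ
  refine rep_gen U x hU hd hK hI (Ψ := id) continuous_id Function.injective_id (x 1) ?_
  intro m
  rw [hx, inv_inv, mul_one]
  rfl

/-- cutoff -/
noncomputable def cut (r : ℝ) : ℝ := max 0 (min 1 (min (128 / 3 * r - 1) (2 - 2 * r)))

lemma cut_cont : Continuous cut := by unfold cut; fun_prop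

lemma cut_one : cut 1 = 0 := by unfold cut; norm_num

lemma cut_low {r : ℝ} (h : r ≤ 3 / 128) : cut r = 0 := by
  unfold cut
  apply max_eq_left
  exact (min_le_right _ _).trans ((min_le_left _ _).trans (by linarith))

lemma cut_mid {r : ℝ} (h : 3 / 64 ≤ r) (h' : r ≤ 5 / 64) : cut r = 1 := by
  unfold cut
  rw [min_eq_left, max_eq_right zero_le_one]
  exact le_min (by linarith) (by linarith)

/-- The positive direction. -/
theorem hilbert_fun {g : ℕ → G} (hg : Sparse g) (hgc : ∀ m n, g m * g n = g n * g m)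
    {f : G → ℝ} {B : ℝ} (hB : 0 < B) (hfB : ∀ x, |f x| ≤ B)
    (hf0 : ∀ x, f x ≠ 0 → ∃ n, x = g n ∨ x = (g n)⁻¹) :
    IsHilbertFunctionG.{u, u, u} G f := by
  have hr : ∀ x, -1 ≤ f x / B ∧ f x / B ≤ 1 := by
    intro x
    have := abs_le.mp (hfB x)
    constructor
    · rw [le_div_iff₀ hB]; linarith
    · rw [div_le_iff₀ hB]; linarith
  let p : ℕ → ℝ := fun n => (f (g n) / B + f (g n)⁻¹ / B) / 2
  let q : ℕ → ℝ := fun n => (f (g n) / B - f (g n)⁻¹ / B) / 2
  have hpq : ∀ n, |p n| + |q n| ≤ 1 := by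
    intro n
    obtain ⟨h1, h2⟩ := hr (g n)
    obtain ⟨h3, h4⟩ := hr (g n)⁻¹
    rcases abs_cases (p n) with ⟨h5, -⟩ | ⟨h5, -⟩ <;>
    rcases abs_cases (q n) with ⟨h6, -⟩ | ⟨h6, -⟩ <;>
    · rw [h5, h6]; simp only [p, q]; linarith
  let τ : ℕ → ℂ := fun n => ⟨(4 + p n) / 64, q n / 64⟩
  have hτ : ∀ n, ‖τ n‖ ≤ 3 / 32 := by
    intro n
    have h1 := Complex.norm_le_abs_re_add_abs_im (τ n)
    have h2 : |(τ n).re| ≤ (4 + |p n|) / 64 := by
      change |(4 + p n) / 64| ≤ _
      rw [abs_div, abs_of_pos (by norm_num : (0 : ℝ) < 64)]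
      have := abs_add_le 4 (p n)
      rw [abs_of_pos (by norm_num : (0 : ℝ) < 4)] at this
      linarith
    have h3 : |(τ n).im| = |q n| / 64 := by
      change |q n / 64| = _
      rw [abs_div, abs_of_pos (by norm_num : (0 : ℝ) < 64)]
    have := hpq n
    linarith
  obtain ⟨φ, hφ, h1, h0, ht, h16⟩ := exists_pd hg hgc τ hτ (by
    intro n hn
    have h2 : (g n)⁻¹ = g n := inv_eq_of_mul_eq_one_right hn
    apply Complex.ext
    · rw [Complex.conj_re]
    · rw [Complex.conj_im]
      change -(q n / 64) = q n / 64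
      simp only [q, h2]
      ring)
  have hK : IsCompact (Metric.closedBall (0 : ℂ) 1) := isCompact_closedBall _ _
  have hI : ∀ x, φ x ∈ Metric.closedBall (0 : ℂ) 1 := by
    intro x
    rw [mem_closedBall_zero_iff]; exact h0 x
  have : CompactSpace (cyclicSetG φ) := isCompact_iff_compactSpace.mp (cyc_compact hK hI)
  let F : ℂ → ℝ := fun z => B * ((64 * (z.re + z.im) - 4) * cut z.re)
  have hF : Continuous F := by
    have h1 := Complex.continuous_re
    have h2 := Complex.continuous_im
    have h3 := cut_cont.comp h1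
    exact continuous_const.mul (((continuous_const.mul (h1.add h2)).sub continuous_const).mul h3)
  refine ⟨cyclicSetG φ, inferInstance, this, inferInstance, cyclicActionG φ,
    rep_of_pd hφ hK hI, ⟨φ, self_mem φ⟩, fun y => F (y.1 1),
    hF.comp ((continuous_apply 1).comp continuous_subtype_val), ?_⟩
  intro x
  change f x = F ((cyclicActionG φ x ⟨φ, self_mem φ⟩).1 1)
  rw [cyc_apply, one_mul]
  change f x = F (φ x)
  have hcut : ∀ n, cut ((4 + p n) / 64) = 1 := by
    intro n
    have h2 := hpq n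
    have h3 := abs_le.mp ((le_add_of_nonneg_right (abs_nonneg (q n))).trans h2)
    exact cut_mid (by linarith [h3.1]) (by linarith [h3.2])
  by_cases hx : ∃ n, x = g n ∨ x = (g n)⁻¹
  · obtain ⟨n, rfl | rfl⟩ := hx
    · rw [ht]
      change f (g n) = B * ((64 * ((4 + p n) / 64 + q n / 64) - 4) * cut ((4 + p n) / 64))
      rw [hcut]
      simp only [p, q]
      field_simp
      ring
    · rw [hφ.1, ht]
      change f (g n)⁻¹ = B * ((64 * ((4 + p n) / 64 + -(q n / 64)) - 4) * cut ((4 + p n) / 64))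
      rw [hcut]
      simp only [p, q]
      field_simp
      ring
  · have hfx : f x = 0 := by
      by_contra h
      exact hx (hf0 x h)
    rw [hfx]
    by_cases hx1 : x = 1
    · rw [hx1, h1]
      change 0 = B * ((64 * ((1 : ℂ).re + (1 : ℂ).im) - 4) * cut (1 : ℂ).re)
      rw [Complex.one_re, cut_one]; ring
    · push Not at hx
      have h3 := h16 x hx1 hx
      change 0 = B * ((64 * ((φ x).re + (φ x).im) - 4) * cut (φ x).re)
      rw [cut_low ((Complex.re_le_norm _).trans h3)]; ring

/-- The negative direction. -/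
theorem not_rep {g : ℕ → G} (hg : Sparse g) (hgc : ∀ m n, g m * g n = g n * g m)
    {f : G → ℝ} {B : ℝ} (hfB : ∀ x, |f x| ≤ B)
    (hf0 : ∀ x, f x ≠ 0 → ∃ n, x = g n ∨ x = (g n)⁻¹) {ε : ℝ} (hε : 0 < ε)
    (hM : {n | ε ≤ |f (g n)|}.Infinite) :
    ¬ HilbertRepresentableG.{u, u, w} G (cyclicSetG f) (cyclicActionG f) := by
  rintro ⟨H, i1, i2, i3, U, α, hα, hU⟩
  set M := {n | ε ≤ |f (g n)|} with hMdef
  have hI : ∀ x, f x ∈ Set.Icc (-B) B := fun x => abs_le.mp (hfB x)
  have hinj : Function.Injective α := by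
    intro x y hxy
    exact hα.injective (by simp only [hxy])
  have hc : ∀ v : H, Continuous (fun y => inner ℂ v (α y)) := by
    intro v
    have h1 : Continuous (fun x => toWeakSpace ℂ H (α x)) := hα.continuous
    have h2 : Continuous (fun y : WeakSpace ℂ H => inner ℂ v ((toWeakSpace ℂ H).symm y)) :=
      WeakBilin.eval_continuous (topDualPairing ℂ H).flip (InnerProductSpace.toDual ℂ H v)
    exact h2.comp h1
  have : CompactSpace (cyclicSetG f) :=
    isCompact_iff_compactSpace.mp (cyc_compact isCompact_Icc hI)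
  have hne : (Filter.cofinite ⊓ 𝓟 M).NeBot := hM.cofinite_inf_principal_neBot
  set 𝒰 : Ultrafilter ℕ := Ultrafilter.of (Filter.cofinite ⊓ 𝓟 M) with h𝒰
  have hle : (𝒰 : Filter ℕ) ≤ Filter.cofinite ⊓ 𝓟 M := Ultrafilter.of_le _
  have hcof : (𝒰 : Filter ℕ) ≤ Filter.cofinite := hle.trans inf_le_left
  have hMU : ∀ᶠ n in (𝒰 : Filter ℕ), n ∈ M := (hle.trans inf_le_right) (mem_principal_self M)
  let f0 : cyclicSetG f := ⟨f, self_mem f⟩
  let P : ℕ → cyclicSetG f := fun n => cyclicActionG f (g n) f0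
  obtain ⟨β, -, hβ⟩ := (isCompact_univ (X := cyclicSetG f)).ultrafilter_le_nhds (𝒰.map P) (by simp)
  have hP : Tendsto P 𝒰 (𝓝 β) := hβ
  have hβy : ∀ y, Tendsto (fun n => f (y * g n)) 𝒰 (𝓝 (β.1 y)) := by
    intro y
    exact (((continuous_apply y).comp continuous_subtype_val).tendsto β).comp hP
  have hβ1 : β.1 1 ≠ 0 := by
    have h1 : ε ≤ |β.1 1| := by
      refine ge_of_tendsto (hβy 1).abs ?_
      filter_upwards [hMU] with n hn
      rw [one_mul]; exact hn
    intro h
    rw [h, abs_zero] at h1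
    linarith
  have hlev : ∀ y, β.1 y ≠ 0 → ∀ᶠ n in (𝒰 : Filter ℕ), y = 1 ∨ y = (g n)⁻¹ * (g n)⁻¹ := by
    intro y hy
    obtain ⟨m, hm⟩ := level hg hgc y
    have h1 : ∀ᶠ n in (𝒰 : Filter ℕ), f (y * g n) ≠ 0 := (hβy y).eventually_ne hy
    have h2 : ∀ᶠ n in (𝒰 : Filter ℕ), m ≤ n := hcof (by
      rw [Nat.cofinite_eq_atTop]; exact eventually_ge_atTop m)
    filter_upwards [h1, h2] with n hn1 hn2
    obtain ⟨j, hj⟩ := hf0 _ hn1
    by_cases hjn : j = n
    · subst hjn
      rcases hj with hj | hj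
      · left; exact mul_eq_right.mp hj
      · right; exact eq_mul_inv_of_mul_eq hj
    · exfalso
      rcases hj with hj | hj
      · exact (hm n hn2 j hjn).1 hj
      · exact (hm n hn2 j hjn).2 hj
  have hfin : {y | β.1 y ≠ 0}.Finite := by
    by_cases h : ∃ y1, β.1 y1 ≠ 0 ∧ y1 ≠ 1
    · obtain ⟨y1, hy1, hy1'⟩ := h
      refine ((Set.finite_singleton y1).insert 1).subset ?_
      intro y hy
      by_cases hy' : y = 1
      · left; exact hy'
      · right
        obtain ⟨n, h1, h2⟩ := ((hlev y hy).and (hlev y1 hy1)).exists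
        have h3 := h1.resolve_left hy'
        have h4 := h2.resolve_left hy1'
        exact h3.trans h4.symm
    · push Not at h
      exact (Set.finite_singleton 1).subset (fun y hy => h y hy)
  let Q : ℕ → cyclicSetG f := fun n => cyclicActionG f (g n)⁻¹ β
  have hQ0 : Tendsto (fun n => (Q n).1) 𝒰 (𝓝 (0 : G → ℝ)) := by
    rw [tendsto_pi_nhds]
    intro x
    apply tendsto_const_nhds.congr'
    have h1 : {n | x * (g n)⁻¹ ∈ {y | β.1 y ≠ 0}}.Finite :=
      hfin.preimage (fun a _ b _ hab => sparse_inj hg (inv_injective (mul_left_cancel hab)))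
    have h2 := hcof h1.compl_mem_cofinite
    filter_upwards [h2] with n hn
    have h3 : β.1 (x * (g n)⁻¹) = 0 := by
      by_contra h
      exact hn h
    exact h3.symm
  have hz : (0 : G → ℝ) ∈ cyclicSetG f :=
    isClosed_closure.mem_of_tendsto hQ0 (Eventually.of_forall fun n => (Q n).2)
  let z0 : cyclicSetG f := ⟨0, hz⟩
  have hQ : Tendsto Q 𝒰 (𝓝 z0) := by
    rw [tendsto_subtype_rng]; exact hQ0
  have hUz : ∀ h : G, U h (α z0) = α z0 := by
    intro h
    rw [← hU]
    rfl
  have t1 : ∀ v : H, Tendsto (fun n => inner ℂ v (U (g n) (α f0))) 𝒰 (𝓝 (inner ℂ v (α β))) := by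
    intro v
    refine (((hc v).tendsto _).comp hP).congr ?_
    intro n
    simp only [Function.comp_apply, P]
    rw [hU]
  have t2 : ∀ v : H, Tendsto (fun n => inner ℂ v (U (g n)⁻¹ (α β))) 𝒰 (𝓝 (inner ℂ v (α z0))) := by
    intro v
    refine (((hc v).tendsto _).comp hQ).congr ?_
    intro n
    simp only [Function.comp_apply, Q]
    rw [hU]
  have t3 : Tendsto (fun n => inner ℂ (α β - α z0) (U (g n) (α f0 - α z0))) 𝒰
      (𝓝 (inner ℂ (α β - α z0) (α β - α z0))) := by
    have := (t1 (α β - α z0)).sub (tendsto_const_nhds (x := inner ℂ (α β - α z0) (α z0)))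
    rw [← inner_sub_right] at this
    refine this.congr ?_
    intro k
    rw [map_sub, inner_sub_right _ (_ : H), hUz]
  have t4 : Tendsto (fun n => inner ℂ (α β - α z0) (U (g n) (α f0 - α z0))) 𝒰 (𝓝 0) := by
    have h5 := (t2 (α f0 - α z0)).sub
      (tendsto_const_nhds (x := inner ℂ (α f0 - α z0) (α z0)))
    rw [sub_self] at h5
    have h6 := (Complex.continuous_conj.tendsto _).comp h5
    rw [map_zero] at h6
    refine h6.congr ?_
    intro k
    simp only [Function.comp_apply]
    rw [← inner_sub_right, inner_conj_symm]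
    have h7 : (U (g k)⁻¹) (α β) - α z0 = (U (g k)⁻¹) (α β - α z0) := by
      rw [map_sub, hUz]
    rw [h7, ← LinearIsometryEquiv.inner_map_map (U (g k))]
    congr 1
    change (U (g k) * U (g k)⁻¹) (α β - α z0) = α β - α z0
    rw [← map_mul, mul_inv_cancel, map_one]
    rfl
  have h5 : inner ℂ (α β - α z0) (α β - α z0) = 0 := tendsto_nhds_unique t3 t4
  have h6 : α β = α z0 := sub_eq_zero.mp (inner_self_eq_zero.mp h5)
  have h7 := hinj h6
  exact hβ1 (congrFun (congrArg Subtype.val h7) 1)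

/-- The negative direction, final form. -/
theorem not_rep' {g : ℕ → G} (hg : Sparse g) (hgc : ∀ m n, g m * g n = g n * g m)
    {f : G → ℝ} {B : ℝ} (hfB : ∀ x, |f x| ≤ B)
    (hf0 : ∀ x, f x ≠ 0 → ∃ n, x = g n ∨ x = (g n)⁻¹) (hft : ¬ Tendsto f cofinite (𝓝 0)) :
    ¬ HilbertRepresentableG.{u, u, w} G (cyclicSetG f) (cyclicActionG f) := by
  obtain ⟨ε, hε, hεi⟩ : ∃ ε > 0, {x | ε ≤ |f x|}.Infinite := by
    by_contra hcon
    push Not at hcon
    apply hft
    rw [Metric.tendsto_nhds]
    intro ε hε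
    rw [Filter.eventually_cofinite]
    refine (hcon ε hε).subset ?_
    intro x hx
    simp only [Set.mem_ofPred_eq, dist_zero_right, Real.norm_eq_abs, not_lt] at hx ⊢
    exact hx
  by_cases hM : {n | ε ≤ |f (g n)|}.Infinite
  · exact not_rep hg hgc hfB hf0 hε hM
  · have hM' : {n | ε ≤ |f (g n)⁻¹|}.Infinite := by
      intro hfinM'
      rw [Set.not_infinite] at hM
      apply hεi
      refine ((hM.image g).union (hfinM'.image (fun n => (g n)⁻¹))).subset ?_
      intro x hx
      have hx0 : f x ≠ 0 := by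
        intro h
        simp only [Set.mem_ofPred_eq, h, abs_zero] at hx
        linarith
      obtain ⟨n, rfl | rfl⟩ := hf0 x hx0
      · exact Or.inl ⟨n, hx, rfl⟩
      · exact Or.inr ⟨n, hx, rfl⟩
    refine not_rep (sparse_inv hg) ?_ hfB ?_ hε hM'
    · intro m n
      rw [← mul_inv_rev, ← mul_inv_rev, hgc]
    · intro x hx
      obtain ⟨n, hn⟩ := hf0 x hx
      refine ⟨n, ?_⟩
      rw [inv_inv]
      exact hn.symm

/-- soft threshold -/
noncomputable def so (k : ℕ) (t : ℝ) : ℝ :=
  max (Real.arctan t - 1 / (k + 1)) 0 + min (Real.arctan t + 1 / (k + 1)) 0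

lemma so_cont (k : ℕ) : Continuous (so k) := by
  unfold so
  have := Real.continuous_arctan
  fun_prop

lemma so_mono (k : ℕ) {a b : ℝ} (h : a ≤ b) : so k a ≤ so k b := by
  unfold so
  have h1 := Real.arctan_mono h
  exact add_le_add (max_le_max (by linarith) le_rfl) (min_le_min (by linarith) le_rfl)

lemma so_strict {a b : ℝ} (h : a < b) : ∃ k, so k a < so k b := by
  have h1 := Real.arctan_strictMono h
  by_cases hb : 0 < Real.arctan b
  · obtain ⟨k, hk⟩ := exists_nat_one_div_lt hb
    refine ⟨k, ?_⟩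
    unfold so
    refine add_lt_add_of_lt_of_le ?_ (min_le_min (by linarith) le_rfl)
    rw [max_eq_left (a := Real.arctan b - 1 / (k + 1)) (by linarith)]
    exact max_lt (by linarith) (by linarith)
  · have ha : 0 < -Real.arctan a := by linarith
    obtain ⟨k, hk⟩ := exists_nat_one_div_lt ha
    refine ⟨k, ?_⟩
    unfold so
    refine add_lt_add_of_le_of_lt (max_le_max (by linarith) le_rfl) ?_
    rw [min_eq_left (a := Real.arctan a + 1 / (k + 1)) (by linarith)]
    exact lt_min (by linarith) (by linarith)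

lemma so_bound (k : ℕ) (t : ℝ) : |so k t| ≤ 2 := by
  have h1 := Real.arctan_lt_pi_div_two t
  have h2 := Real.neg_pi_div_two_lt_arctan t
  have h3 := Real.pi_lt_d2
  have h4 : (0 : ℝ) < 1 / (k + 1) := Nat.one_div_pos_of_nat
  unfold so
  rw [abs_le]
  constructor
  · have h5 : (0 : ℝ) ≤ max (Real.arctan t - 1 / (k + 1)) 0 := le_max_right _ _
    have h6 : (-2 : ℝ) ≤ min (Real.arctan t + 1 / (k + 1)) 0 := le_min (by linarith) (by norm_num)
    linarith
  · have h5 : max (Real.arctan t - 1 / (k + 1)) 0 ≤ 2 := max_le (by linarith) (by norm_num)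
    have h6 : min (Real.arctan t + 1 / (k + 1)) 0 ≤ 0 := min_le_right _ _
    linarith

lemma so_zero (k : ℕ) {t : ℝ} (h : |Real.arctan t| ≤ 1 / (k + 1)) : so k t = 0 := by
  obtain ⟨h1, h2⟩ := abs_le.mp h
  unfold so
  rw [max_eq_right (by linarith), min_eq_right (by linarith), add_zero]

/-- Cyclic systems of functions tending to zero at infinity are Hilbert representable. -/
theorem rep_c0 {f : G → ℝ} (hf : Tendsto f cofinite (𝓝 0)) :
    HilbertRepresentableG.{u, u, u} G (cyclicSetG f) (cyclicActionG f) := by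
  classical
  obtain ⟨b, hb⟩ := hf.bddAbove_range_of_cofinite
  obtain ⟨a, ha⟩ := hf.bddBelow_range_of_cofinite
  have hI : ∀ x, f x ∈ Set.Icc a b := fun x => ⟨ha ⟨x, rfl⟩, hb ⟨x, rfl⟩⟩
  have hG : Gram (ph (fun _ : ℕ => (1 : G)) (fun _ => 0) 0) := gram_zero _ _
  obtain ⟨H, i1, i2, i3, U, x, hU, hx, hd⟩ := gns (φ := ph (fun _ : ℕ => (1 : G)) (fun _ => 0) 0)
    ⟨fun n => hG.symm n, fun c => hG.nonneg c⟩
  have hx' : ∀ m n : G, inner ℂ (x m⁻¹) (x n⁻¹) = if m = n then (1 : ℂ) else 0 := by
    intro m n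
    rw [hx]
    simp only [ph]
    by_cases h : m = n
    · subst h; simp
    · have : ¬ (m⁻¹⁻¹ * n⁻¹ = 1) := by
        rw [inv_inv, mul_inv_eq_one]; exact h
      rw [if_neg this, if_neg h]
  have hfin : ∀ k : ℕ, {m | so k (f m) ≠ 0}.Finite := by
    intro k
    have h1 : Tendsto (fun m => Real.arctan (f m)) cofinite (𝓝 0) := by
      have := (Real.continuous_arctan.tendsto 0).comp hf
      rwa [Real.arctan_zero] at this
    have h2 := (Metric.tendsto_nhds.mp h1) (1 / (k + 1)) Nat.one_div_pos_of_nat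
    rw [Filter.eventually_cofinite] at h2
    refine h2.subset ?_
    intro m hm hm'
    rw [dist_zero_right, Real.norm_eq_abs] at hm'
    exact hm (so_zero k hm'.le)
  let v : ℕ → H := fun k => ∑ m ∈ (hfin k).toFinset, ((so k (f m) : ℝ) : ℂ) • x m⁻¹
  have hv : ∀ k m, inner ℂ (x m⁻¹) (v k) = ((so k (f m) : ℝ) : ℂ) := by
    intro k m
    simp only [v]
    rw [inner_sum]
    simp only [inner_smul_right, hx', mul_ite, mul_one, mul_zero]
    rw [Finset.sum_ite_eq]
    split_ifs with h
    · rfl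
    · simp only [Set.Finite.mem_toFinset, Set.mem_ofPred_eq, not_not] at h
      rw [h]; simp
  let wt : ℕ → ℝ := fun k => (1 / 2) ^ k / (1 + ‖v k‖)
  have hwt : ∀ k, 0 < wt k ∧ wt k ≤ (1 / 2) ^ k ∧ wt k * ‖v k‖ ≤ (1 / 2) ^ k := by
    intro k
    have h1 : 0 < 1 + ‖v k‖ := by positivity
    have h2 : (0 : ℝ) < (1 / 2) ^ k := by positivity
    refine ⟨div_pos h2 h1, div_le_self h2.le (by linarith [norm_nonneg (v k)]), ?_⟩
    simp only [wt]
    rw [div_mul_eq_mul_div, div_le_iff₀ h1]
    nlinarith [norm_nonneg (v k)]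
  have hs : Summable (fun k => ((wt k : ℝ) : ℂ) • v k) := by
    refine Summable.of_norm_bounded summable_geometric_two (fun k => ?_)
    rw [norm_smul, Complex.norm_real, Real.norm_of_nonneg (hwt k).1.le]
    exact (hwt k).2.2
  have hbd : ∀ k t, ‖wt k * so k t‖ ≤ (1 / 2 : ℝ) ^ k * 2 := by
    intro k t
    rw [norm_mul, Real.norm_of_nonneg (hwt k).1.le, Real.norm_eq_abs]
    exact mul_le_mul (hwt k).2.1 (so_bound k t) (abs_nonneg _) (by positivity)
  have hs2 : Summable (fun k : ℕ => (1 / 2 : ℝ) ^ k * 2) := summable_geometric_two.mul_right 2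
  have hsum : ∀ t, Summable (fun k => wt k * so k t) := fun t =>
    Summable.of_norm_bounded hs2 (fun k => hbd k t)
  refine rep_gen U x hU hd isCompact_Icc hI (Ψ := fun t => ((∑' k, wt k * so k t : ℝ) : ℂ)) ?_ ?_
    (∑' k, ((wt k : ℝ) : ℂ) • v k) ?_
  · exact Complex.continuous_ofReal.comp
      (continuous_tsum (fun k => continuous_const.mul (so_cont k)) hs2 hbd)
  · refine Complex.ofReal_injective.comp (StrictMono.injective ?_)
    intro s t hst
    obtain ⟨k, hk⟩ := so_strict hst
    exact Summable.tsum_lt_tsum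
      (fun j => mul_le_mul_of_nonneg_left (so_mono j hst.le) (hwt j).1.le)
      (mul_lt_mul_of_pos_left hk (hwt k).1) (hsum s) (hsum t)
  · intro m
    have h1 := (innerSL ℂ (x m⁻¹)).hasSum hs.hasSum
    have h2 := h1.tsum_eq
    change _ = inner ℂ (x m⁻¹) (∑' k, ((wt k : ℝ) : ℂ) • v k) at h2
    rw [← h2]
    have h3 : (fun k => (innerSL ℂ (x m⁻¹)) (((wt k : ℝ) : ℂ) • v k)) =
        fun k => (((wt k * so k (f m) : ℝ)) : ℂ) := by
      ext k
      rw [innerSL_apply_apply, inner_smul_right, hv]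
      push_cast
      ring
    change ∑' k, (innerSL ℂ (x m⁻¹)) (((wt k : ℝ) : ℂ) • v k) = _
    rw [h3, Complex.ofReal_tsum]

end

/-- All groups. -/
theorem groups (G : Type u) [Group G] (E : Set G) (hE : E.Infinite)
    (hcomm : ∀ a ∈ E, ∀ b ∈ E, a * b = b * a) :
    ∃ D ⊆ E, D.Infinite ∧ ∀ f : G → ℝ, (∃ B, ∀ x, |f x| ≤ B) →
      (∀ x, x ∉ D → x⁻¹ ∉ D → f x = 0) →
      IsHilbertFunctionG.{u, u, u} G f ∧
      (¬ Tendsto f cofinite (𝓝 0) →
        ¬ HilbertRepresentableG.{u, u, w} G (cyclicSetG f) (cyclicActionG f)) := by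
  obtain ⟨g, hg, hgE⟩ := exists_sparse hE
  have hgc : ∀ m n, g m * g n = g n * g m := fun m n => hcomm _ (hgE m) _ (hgE n)
  refine ⟨Set.range g, ?_, Set.infinite_range_of_injective (sparse_inj hg), ?_⟩
  · rintro _ ⟨n, rfl⟩; exact hgE n
  rintro f ⟨B, hB⟩ hfD
  have hf0 : ∀ x, f x ≠ 0 → ∃ n, x = g n ∨ x = (g n)⁻¹ := by
    intro x hx
    by_contra hcon
    push Not at hcon
    apply hx
    apply hfD
    · rintro ⟨n, hn⟩; exact (hcon n).1 hn.symm
    · rintro ⟨n, hn⟩; exact (hcon n).2 (by rw [hn, inv_inv])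
  exact ⟨hilbert_fun hg hgc (B := max B 1) (lt_of_lt_of_le one_pos (le_max_right _ _))
    (fun x => (hB x).trans (le_max_left _ _)) hf0, not_rep' hg hgc hB hf0⟩

/-- From actions of `ℤ` (written multiplicatively) to single homeomorphisms. -/
theorem toZ_fun {f : ℤ → ℝ}
    (h : IsHilbertFunctionG.{0, 0, 0} (Multiplicative ℤ) fun x => f x.toAdd) :
    IsHilbertFunction.{0, 0} f := by
  obtain ⟨X, i1, i2, i3, ρ, ⟨H, j1, j2, j3, U, α, hα, hU⟩, x₀, F, hF, hf⟩ := h
  refine ⟨X, i1, i2, i3, ρ (Multiplicative.ofAdd 1),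
    ⟨H, j1, j2, j3, U (Multiplicative.ofAdd 1), α, hα, fun x => hU _ _⟩, x₀, F, hF, ?_⟩
  intro n
  have h1 := hf (Multiplicative.ofAdd n)
  have h2 : Multiplicative.ofAdd n = (Multiplicative.ofAdd (1 : ℤ)) ^ n := by
    rw [← ofAdd_zsmul, smul_eq_mul, mul_one]
  rw [← map_zpow, ← h2]
  exact h1

theorem toZ_rep {f : ℤ → ℝ}
    (h : HilbertRepresentable.{0, w} (cyclicSet f) (cyclicShift f)) :
    HilbertRepresentableG.{0, 0, w} (Multiplicative ℤ)
      (cyclicSetG fun x : Multiplicative ℤ => f x.toAdd)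
      (cyclicActionG fun x : Multiplicative ℤ => f x.toAdd) := by
  obtain ⟨H, j1, j2, j3, U, α, hα, hU⟩ := h
  set f' : Multiplicative ℤ → ℝ := fun x => f x.toAdd with hf'
  have hmem : ∀ y : cyclicSetG f', (fun n : ℤ => y.1 (Multiplicative.ofAdd n)) ∈ cyclicSet f :=
    fun y => y.2
  let ι : cyclicSetG f' → cyclicSet f := fun y => ⟨fun n => y.1 (Multiplicative.ofAdd n), hmem y⟩
  have hι : Topology.IsEmbedding ι := Topology.IsEmbedding.id (X := cyclicSet f)
  have h1 : ∀ y : cyclicSetG f', α (ι (cyclicActionG f' (Multiplicative.ofAdd 1) y)) = U (α (ι y)) := by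
    intro y
    rw [← hU]
    rfl
  have main : ∀ (n : ℤ) (y : cyclicSetG f'),
      α (ι (cyclicActionG f' (Multiplicative.ofAdd n) y)) = (U ^ n) (α (ι y)) := by
    intro n
    induction n using Int.induction_on with
    | zero =>
      intro y
      have : cyclicActionG f' (Multiplicative.ofAdd 0) = 1 := map_one _
      rw [this]
      simp
    | succ k ih =>
      intro y
      have h2 : cyclicActionG f' (Multiplicative.ofAdd ((k : ℤ) + 1)) y =
          cyclicActionG f' (Multiplicative.ofAdd 1) (cyclicActionG f' (Multiplicative.ofAdd (k : ℤ)) y) := by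
        rw [add_comm, ofAdd_add, map_mul]
        rfl
      rw [h2, h1, ih, add_comm, zpow_add, zpow_one]
      rfl
    | pred k ih =>
      intro y
      have h2 : cyclicActionG f' (Multiplicative.ofAdd (-(k : ℤ))) y =
          cyclicActionG f' (Multiplicative.ofAdd 1)
            (cyclicActionG f' (Multiplicative.ofAdd (-(k : ℤ) - 1)) y) := by
        have : -(k : ℤ) = 1 + (-(k : ℤ) - 1) := by ring
        conv_lhs => rw [this, ofAdd_add, map_mul]
        rfl
      have h3 := ih y
      rw [h2, h1] at h3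
      have h4 : α (ι (cyclicActionG f' (Multiplicative.ofAdd (-(k : ℤ) - 1)) y)) =
          U⁻¹ ((U ^ (-(k : ℤ))) (α (ι y))) := by
        rw [← h3]
        exact (U.symm_apply_apply _).symm
      rw [h4]
      have : (-(k:ℤ) - 1) = (-1) + (-(k:ℤ)) := by ring
      rw [this, zpow_add, zpow_neg_one]
      rfl
  refine ⟨H, j1, j2, j3, zpowersHom _ U, fun y => α (ι y), hα.comp hι, ?_⟩
  intro g y
  exact main g.toAdd y

theorem ofZ_rep {f : ℤ → ℝ}
    (h : HilbertRepresentableG.{0, 0, w} (Multiplicative ℤ)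
      (cyclicSetG fun x : Multiplicative ℤ => f x.toAdd)
      (cyclicActionG fun x : Multiplicative ℤ => f x.toAdd)) :
    HilbertRepresentable.{0, w} (cyclicSet f) (cyclicShift f) := by
  obtain ⟨H, j1, j2, j3, U, α, hα, hU⟩ := h
  have hmem : ∀ y : cyclicSet f, (fun n : Multiplicative ℤ => y.1 n.toAdd) ∈
      cyclicSetG (fun x : Multiplicative ℤ => f x.toAdd) :=
    fun y => y.2
  let ι : cyclicSet f → cyclicSetG (fun x : Multiplicative ℤ => f x.toAdd) := fun y => ⟨fun n => y.1 n.toAdd, hmem y⟩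
  have hι : Topology.IsEmbedding ι := Topology.IsEmbedding.id (X := cyclicSet f)
  refine ⟨H, j1, j2, j3, U (Multiplicative.ofAdd 1), fun y => α (ι y), hα.comp hι, ?_⟩
  intro y
  change α (ι (cyclicShift f y)) = U (Multiplicative.ofAdd 1) (α (ι y))
  rw [← hU]
  rfl

/-- The integers. -/
theorem integers (E : Set ℤ) (hE : E.Infinite) :
    ∃ D ⊆ E, D.Infinite ∧ ∀ f : ℤ → ℝ, (∃ B, ∀ n, |f n| ≤ B) →
      (∀ n, n ∉ D → -n ∉ D → f n = 0) →
      IsHilbertFunction.{0, 0} f ∧
      (Tendsto f cofinite (𝓝 0) → HilbertRepresentable.{0, 0} (cyclicSet f) (cyclicShift f)) ∧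
      (¬ Tendsto f cofinite (𝓝 0) →
        ¬ HilbertRepresentable.{0, w} (cyclicSet f) (cyclicShift f)) := by
  obtain ⟨D, hDE, hD, hD'⟩ := groups.{0, w} (Multiplicative ℤ)
    {x : Multiplicative ℤ | x.toAdd ∈ E} hE (fun a _ b _ => mul_comm a b)
  refine ⟨{n : ℤ | Multiplicative.ofAdd n ∈ D}, fun n hn => hDE hn, hD, ?_⟩
  rintro f hfB hf0
  obtain ⟨h1, h2⟩ := hD' (fun x : Multiplicative ℤ => f x.toAdd) hfB
    (fun x hx hx' => hf0 x.toAdd hx hx')
  refine ⟨toZ_fun h1, fun h => ofZ_rep (rep_c0 (G := Multiplicative ℤ) h), fun h h' => ?_⟩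
  exact h2 h (toZ_rep h')

/-- **Main theorem.**
(1) (Q1, negative answer) There is a Hilbert function on `ℤ` whose cyclic system is not Hilbert
representable.
(2) Every infinite set `E` of integers contains an infinite set `D` such that every bounded
`f : ℤ → ℝ` vanishing off `D ∪ -D` is a Hilbert function, and its cyclic system is Hilbert
representable if and only if `f` tends to zero at infinity.
(3) The same in every group `G`, for every infinite set `E` of pairwise commuting elements.
(4) In every group the cyclic system of every function tending to zero at infinity is Hilbert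
representable. -/
theorem result :
    (∃ f : ℤ → ℝ, IsHilbertFunction.{0, 0} f ∧
      ¬ HilbertRepresentable.{0, w} (cyclicSet f) (cyclicShift f)) ∧
    (∀ E : Set ℤ, E.Infinite → ∃ D ⊆ E, D.Infinite ∧ ∀ f : ℤ → ℝ, (∃ B, ∀ n, |f n| ≤ B) →
      (∀ n, n ∉ D → -n ∉ D → f n = 0) →
      IsHilbertFunction.{0, 0} f ∧
      (Tendsto f cofinite (𝓝 0) → HilbertRepresentable.{0, 0} (cyclicSet f) (cyclicShift f)) ∧
      (¬ Tendsto f cofinite (𝓝 0) →
        ¬ HilbertRepresentable.{0, w} (cyclicSet f) (cyclicShift f))) ∧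
    (∀ (G : Type u) [Group G] (E : Set G), E.Infinite → (∀ a ∈ E, ∀ b ∈ E, a * b = b * a) →
      ∃ D ⊆ E, D.Infinite ∧ ∀ f : G → ℝ, (∃ B, ∀ x, |f x| ≤ B) →
        (∀ x, x ∉ D → x⁻¹ ∉ D → f x = 0) →
        IsHilbertFunctionG.{u, u, u} G f ∧
        (Tendsto f cofinite (𝓝 0) →
          HilbertRepresentableG.{u, u, u} G (cyclicSetG f) (cyclicActionG f)) ∧
        (¬ Tendsto f cofinite (𝓝 0) →
          ¬ HilbertRepresentableG.{u, u, w} G (cyclicSetG f) (cyclicActionG f))) ∧
    (∀ (G : Type u) [Group G] (f : G → ℝ), Tendsto f cofinite (𝓝 0) →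
      HilbertRepresentableG.{u, u, u} G (cyclicSetG f) (cyclicActionG f)) := by
  refine ⟨?_, fun E hE => integers E hE, ?_, fun G _ f hf => rep_c0 hf⟩
  · obtain ⟨D, -, hD, h⟩ := integers.{w} Set.univ Set.infinite_univ
    classical
    obtain ⟨h1, -, h3⟩ := h (Set.indicator D fun _ => (1 : ℝ))
      ⟨1, fun n => by unfold Set.indicator; split_ifs <;> simp⟩
      (fun n hn _ => Set.indicator_of_notMem hn _)
    refine ⟨_, h1, h3 ?_⟩
    intro ht
    have h4 := (Metric.tendsto_nhds.mp ht) 1 one_pos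
    rw [Filter.eventually_cofinite] at h4
    refine hD (h4.subset ?_)
    intro n hn hn'
    rw [Set.indicator_of_mem hn] at hn'
    simp at hn'
  · intro G _ E hE hc
    obtain ⟨D, h1, h2, h3⟩ := groups.{u, w} G E hE hc
    exact ⟨D, h1, h2, fun f hB hf => ⟨(h3 f hB hf).1, fun h => rep_c0 h, (h3 f hB hf).2⟩⟩

end Pool.Agent.Results.MP_4abea4_an.CommutingElements
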